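import Pool.Agent.H688R2.RInd.Hard
import Pool.Agent.H243R3.MIS.Poly

/-!
# `r`-independent sets in continuous graphs have no constant-factor approximation for `r > 1`,
unless `P = NP`

Definitions: `Pool/Agent/H688R2/RInd/Defs.lean` (continuous graphs, algorithms),
`Pool/Agent/NPC/Defs.lean` (polynomial time, NP) and `Pool/Agent/NPC/Classes.lean` (P).
-/

set_option autoImplicit false

namespace Pool.Agent.Results.MP_10a207_lc.NoApproxUnlessPeqNP

open Pool.Agent.H688R2.RInd Pool.Agent.NPC

/-- **Answer to Q1: no, unless P = NP.** If for some `r > 1` and some `c > 0` the maximum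
`r`-independent set problem has a polynomial-time algorithm with performance guarantee `c`, even if
it works only on graphs without isolated vertices, then `P = NP`. Hence, if `P ≠ NP`, then for every
`r > 1` there is no constant-factor approximation, and the statement of Q1 is false. -/
theorem result :
    (∀ r c : ℝ, 1 < r → 0 < c → RApprox NoIsolated r c →
      ∀ L : Set (List Bool), InNP L → InP L) ∧
    ((∃ L : Set (List Bool), InNP L ∧ ¬ InP L) →
      (∀ r c : ℝ, 1 < r → 0 < c → ¬ RApprox NoIsolated r c ∧ ¬ RApprox (fun _ => True) r c) ∧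
      ¬ ∀ r : ℚ, 0 < r → ∃ c : ℝ, 0 < c ∧ RApprox (fun _ => True) (r : ℝ) c) := by
  have key : ∀ r c : ℝ, 1 < r → 0 < c → RApprox NoIsolated r c →
      ∀ L : Set (List Bool), InNP L → InP L := fun r c hr hc h L hL =>
    Pool.Agent.NPC.DP.mis_hard hc (mis_of_r hr h) hL
  have weak : ∀ r c : ℝ, RApprox (fun _ => True) r c → RApprox NoIsolated r c := by
    rintro r c ⟨F, hF, hs⟩
    exact ⟨F, hF, fun A _ => hs A trivial⟩
  refine ⟨key, fun ⟨L, hL, hL'⟩ => ⟨fun r c hr hc => ⟨fun h => hL' (key r c hr hc h L hL),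
    fun h => hL' (key r c hr hc (weak r c h) L hL)⟩, fun h => ?_⟩⟩
  obtain ⟨c, hc, h1⟩ := h 2 (by norm_num)
  exact hL' (key 2 c (by norm_num) hc (weak _ _ (by exact_mod_cast h1)) L hL)

end Pool.Agent.Results.MP_10a207_lc.NoApproxUnlessPeqNP
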